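import Pool.Agent.Run7.h630.QC.Iface

/-!
# Hodge theory for the twisted differences, and the trace of the kernel

Pieces Q5b and Q5c of the interface `Run7/h630/QC/Iface.lean`.
-/

open Matrix Filter Topology
open scoped Matrix.Norms.Frobenius ComplexConjugate

namespace Run7.h281.QC

open Run7.h4.YM Run7.h630.MQ Run7.h630.QC

noncomputable section

variable {N n L l : ℕ}

lemma om_norm (N k : ℕ) : ‖om N k‖ = 1 := by
  unfold om
  have h : 2 * (Real.pi : ℂ) * Complex.I * (k / N) =
      ((2 * Real.pi * (k / N) : ℝ) : ℂ) * Complex.I := by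
    push_cast; ring
  rw [h, Complex.norm_exp_ofReal_mul_I]

lemma rh_norm (k : ℕ) (α : Col N) (x : Site n L l) (j : Fin 4) : ‖rh k α x j‖ = 1 := by
  unfold rh
  split_ifs <;> simp [om_norm]

lemma rh_mul (k : ℕ) (α : Col N) (x : Site n L l) (j : Fin 4) :
    conj (rh k α x j) * rh k α x j = 1 := by
  rw [Complex.conj_mul', rh_norm]; simp

lemma rh_add (k : ℕ) (α : Col N) (x : Site n L l) {i j : Fin 4} (h : i ≠ j) :
    rh k α (x + dir i) j = rh k α x j := by
  unfold rh
  fin_cases i <;> fin_cases j <;> simp_all [dir]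

lemma rh_sub (k : ℕ) (α : Col N) (x : Site n L l) {i j : Fin 4} (h : i ≠ j) :
    rh k α (x - dir i) j = rh k α x j := by
  rw [← rh_add k α (x - dir i) h, sub_add_cancel]

/-- the twisted difference as a linear map -/
def D (n L l : ℕ) (k : ℕ) (α : Col N) (j : Fin 4) : Module.End ℂ (Site n L l → ℂ) where
  toFun h := nb k α j h
  map_add' f g := by
    funext x
    simp only [nb, Pi.add_apply]
    ring
  map_smul' c f := by
    funext x
    simp only [nb, Pi.smul_apply, smul_eq_mul, RingHom.id_apply]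
    ring

/-- its adjoint as a linear map -/
def Ds (n L l : ℕ) (k : ℕ) (α : Col N) (j : Fin 4) : Module.End ℂ (Site n L l → ℂ) where
  toFun h := nbs k α j h
  map_add' f g := by
    funext x
    simp only [nbs, Pi.add_apply]
    ring
  map_smul' c f := by
    funext x
    simp only [nbs, Pi.smul_apply, smul_eq_mul, RingHom.id_apply]
    ring

lemma D_D (k : ℕ) (α : Col N) (i j : Fin 4) : Commute (D n L l k α i) (D n L l k α j) := by
  refine LinearMap.ext fun h => ?_
  funext x
  show nb k α i (nb k α j h) x = nb k α j (nb k α i h) x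
  by_cases hij : i = j
  · rw [hij]
  · simp only [nb]
    rw [rh_add k α x hij, rh_add k α x (Ne.symm hij),
      show x + dir i + dir j = x + dir j + dir i by abel]
    ring

lemma D_Ds (k : ℕ) (α : Col N) (i j : Fin 4) : Commute (D n L l k α i) (Ds n L l k α j) := by
  refine LinearMap.ext fun h => ?_
  funext x
  show nb k α i (nbs k α j h) x = nbs k α j (nb k α i h) x
  by_cases hij : i = j
  · subst hij
    simp only [nb, nbs, add_sub_cancel_right, sub_add_cancel]
    linear_combination h x * rh_mul k α x i - h x * rh_mul k α (x - dir i) i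
  · simp only [nb, nbs]
    rw [show x + dir i - dir j = x - dir j + dir i by abel, rh_add k α (x - dir j) hij,
      rh_sub k α x (Ne.symm hij)]
    ring

lemma Ds_Ds (k : ℕ) (α : Col N) (i j : Fin 4) : Commute (Ds n L l k α i) (Ds n L l k α j) := by
  refine LinearMap.ext fun h => ?_
  funext x
  show nbs k α i (nbs k α j h) x = nbs k α j (nbs k α i h) x
  by_cases hij : i = j
  · rw [hij]
  · simp only [nbs]
    rw [show x - dir i - dir j = x - dir j - dir i by abel, rh_sub k α (x - dir j) hij,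
      show x - dir j - dir i = x - dir i - dir j by abel, rh_sub k α (x - dir i) (Ne.symm hij)]
    rw [show x - dir i - dir j = x - dir j - dir i by abel]
    ring

lemma La_eq (k : ℕ) (α : Col N) :
    La n L l k α = ∑ j : Fin 4, Ds n L l k α j * D n L l k α j := by
  refine LinearMap.ext fun h => ?_
  funext x
  rw [LinearMap.sum_apply, Finset.sum_apply]
  rfl

lemma D_La (k : ℕ) (α : Col N) (i : Fin 4) : Commute (D n L l k α i) (La n L l k α) := by
  rw [La_eq]
  exact Commute.sum_right _ _ _ fun j _ => (D_Ds k α i j).mul_right (D_D k α i j)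

lemma Ds_La (k : ℕ) (α : Col N) (i : Fin 4) : Commute (Ds n L l k α i) (La n L l k α) := by
  rw [La_eq]
  exact Commute.sum_right _ _ _ fun j _ => (Ds_Ds k α i j).mul_right (D_Ds k α j i).symm

lemma comm_G (k : ℕ) (α : Col N) (h1 : ∀ h, La n L l k α (Gr n L l k α h) = h)
    (h2 : ∀ h, Gr n L l k α (La n L l k α h) = h) (T : Module.End ℂ (Site n L l → ℂ))
    (hT : Commute T (La n L l k α)) (h : Site n L l → ℂ) :
    T (Gr n L l k α h) = Gr n L l k α (T h) := by
  have h3 : T (La n L l k α (Gr n L l k α h)) = La n L l k α (T (Gr n L l k α h)) :=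
    congrArg (fun S : Module.End ℂ (Site n L l → ℂ) => S (Gr n L l k α h)) hT.eq
  rw [h1] at h3
  rw [h3, h2]

lemma nb_le (k : ℕ) (α : Col N) (j : Fin 4) (h : Site n L l → ℂ) (M : ℝ) (hM : ∀ x, ‖h x‖ ≤ M)
    (x : Site n L l) : ‖nb k α j h x‖ ≤ 2 * M := by
  unfold nb
  refine (norm_sub_le _ _).trans ?_
  rw [norm_mul, rh_norm, one_mul]
  linarith [hM x, hM (x + dir j)]

lemma nbs_le (k : ℕ) (α : Col N) (j : Fin 4) (h : Site n L l → ℂ) (M : ℝ)
    (hM : ∀ x, ‖h x‖ ≤ M) (x : Site n L l) : ‖nbs k α j h x‖ ≤ 2 * M := by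
  unfold nbs
  refine (norm_sub_le _ _).trans ?_
  rw [norm_mul, RCLike.norm_conj, rh_norm, one_mul]
  linarith [hM x, hM (x - dir j)]

lemma nsum {ι : Type*} (s : Finset ι) (F : ι → ℂ) (B : ℝ) (h : ∀ i ∈ s, ‖F i‖ ≤ B) :
    ‖∑ i ∈ s, F i‖ ≤ s.card * B := by
  refine (norm_sum_le_of_le s h).trans ?_
  simp

lemma card_site [NeZero n] [NeZero L] [NeZero l] :
    ((Finset.univ : Finset (Site n L l)).card : ℝ) = vol n L l := by
  rw [Finset.card_univ]
  simp only [Site, Fintype.card_prod, ZMod.card, vol]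
  push_cast
  ring

lemma one_le_cast [NeZero n] : (1 : ℝ) ≤ n := by
  exact_mod_cast Nat.one_le_iff_ne_zero.mpr (NeZero.ne n)

lemma l_le_vol [NeZero n] [NeZero L] [NeZero l] : (l : ℝ) ^ 2 ≤ vol n L l := by
  unfold vol
  have h1 : (1 : ℝ) ≤ n := one_le_cast
  have h2 : (1 : ℝ) ≤ L := one_le_cast
  have h4 : (1 : ℝ) ≤ n * L := by nlinarith
  nlinarith [sq_nonneg (l : ℝ)]

lemma one_le_vol [NeZero n] [NeZero L] [NeZero l] : 1 ≤ vol n L l := by
  have h3 : (1 : ℝ) ≤ l := one_le_cast
  have := l_le_vol (n := n) (L := L) (l := l)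
  nlinarith

lemma Ginf [NeZero n] [NeZero L] [NeZero l] (k : ℕ) (α : Col N) (C : ℝ) (hC : 0 < C)
    (hG : ∀ h : Site n L l → ℂ, Real.sqrt (∑ x, ‖Gr n L l k α h x‖ ^ 2) ≤
      C * l ^ 2 * Real.sqrt (∑ x, ‖h x‖ ^ 2)) (h : Site n L l → ℂ) (M : ℝ)
    (hM : ∀ x, ‖h x‖ ≤ M) (x : Site n L l) :
    ‖Gr n L l k α h x‖ ≤ C * vol n L l ^ 2 * M := by
  have hM0 : 0 ≤ M := (norm_nonneg _).trans (hM x)
  have hv := one_le_vol (n := n) (L := L) (l := l)
  have hl := l_le_vol (n := n) (L := L) (l := l)
  have h1 : ‖Gr n L l k α h x‖ ≤ Real.sqrt (∑ x, ‖Gr n L l k α h x‖ ^ 2) := by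
    apply Real.le_sqrt_of_sq_le
    exact Finset.single_le_sum (f := fun y => ‖Gr n L l k α h y‖ ^ 2)
      (fun y _ => sq_nonneg _) (Finset.mem_univ x)
  have h2 : Real.sqrt (∑ x, ‖h x‖ ^ 2) ≤ vol n L l * M := by
    apply Real.sqrt_le_iff.mpr
    refine ⟨by positivity, ?_⟩
    have h3 : ∑ x, ‖h x‖ ^ 2 ≤ vol n L l * M ^ 2 := by
      rw [← card_site, ← nsmul_eq_mul]
      exact Finset.sum_le_card_nsmul _ _ _ fun y _ =>
        pow_le_pow_left₀ (norm_nonneg _) (hM y) 2
    have h4 : vol n L l ≤ vol n L l ^ 2 := by nlinarith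
    nlinarith [mul_le_mul_of_nonneg_right h4 (sq_nonneg M)]
  calc ‖Gr n L l k α h x‖ ≤ C * l ^ 2 * Real.sqrt (∑ x, ‖h x‖ ^ 2) := h1.trans (hG h)
    _ ≤ C * vol n L l * (vol n L l * M) := by
        apply mul_le_mul _ h2 (Real.sqrt_nonneg _) (by positivity)
        exact mul_le_mul_of_nonneg_left hl hC.le
    _ = C * vol n L l ^ 2 * M := by ring

/-- Q5b -/
theorem t_Q5b : S_Q5a → S_Q5b := by
  intro h5 N _
  obtain ⟨C, hC, H⟩ := h5 N
  refine ⟨128 * C, 3, by positivity, ?_⟩
  intro n L l k _ _ _ hk α hα f M ε hf hM hε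
  obtain ⟨h1, h2, hG⟩ := H n L l k hk α hα
  have hM0 : 0 ≤ M := (norm_nonneg _).trans (hM 0 0 0)
  have hε0 : 0 ≤ ε := (norm_nonneg _).trans
    (hε 0 1 2 0 (by decide) (by decide) (by decide))
  have hv := one_le_vol (n := n) (L := L) (l := l)
  have hv2 : (0 : ℝ) ≤ vol n L l ^ 2 := by positivity
  have hf' : ∀ i j, f j i = -f i j := fun i j => funext fun x => hf i j x
  have hfi : ∀ i, f i i = 0 := fun i => by
    funext x
    have h3 : f i i x = -f i i x := hf i i x
    have h4 : (2 : ℂ) * f i i x = 0 := by linear_combination h3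
    simpa using h4
  have hpot : ∀ j, pot k α f j = Gr n L l k α (∑ m : Fin 4, Ds n L l k α m (f m j)) := by
    intro j
    unfold pot
    congr 1
  constructor
  · intro j x
    have h3 : ∀ y, ‖(∑ m : Fin 4, Ds n L l k α m (f m j)) y‖ ≤ 8 * M := by
      intro y
      rw [Finset.sum_apply]
      refine (nsum _ _ (2 * M) fun m _ => nbs_le k α m (f m j) M (hM m j) y).trans ?_
      simp only [Finset.card_univ, Fintype.card_fin, Nat.cast_ofNat]
      linarith
    rw [hpot]
    refine (Ginf k α C hC hG _ _ h3 x).trans ?_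
    have h4 : C * vol n L l ^ 2 * (8 * M) ≤ C * vol n L l ^ 2 * (8 * M) * (16 * vol n L l) := by
      apply le_mul_of_one_le_right (by positivity)
      linarith
    refine h4.trans (le_of_eq ?_)
    ring
  · -- the Bianchi defect
    have key : ∀ i j : Fin 4, i ≠ j → ∀ x,
        nb k α i (pot k α f j) x - nb k α j (pot k α f i) x = f i j x -
          Gr n L l k α (∑ m : Fin 4, Ds n L l k α m (D n L l k α m (f i j) +
            D n L l k α i (f j m) + D n L l k α j (f m i))) x := by
      intro i j hij x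
      have e1 : ∀ a b : Fin 4, nb k α a (pot k α f b) =
          Gr n L l k α (∑ m : Fin 4, Ds n L l k α m (D n L l k α a (f m b))) := by
        intro a b
        show D n L l k α a (pot k α f b) = _
        rw [hpot, comm_G k α h1 h2 _ (D_La k α a), map_sum]
        congr 1
        refine Finset.sum_congr rfl fun m _ => ?_
        exact congrArg (fun S : Module.End ℂ (Site n L l → ℂ) => S (f m b)) (D_Ds k α a m).eq
      have e2 : Gr n L l k α (∑ m : Fin 4, Ds n L l k α m (D n L l k α m (f i j))) = f i j := by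
        have e3 : ∑ m : Fin 4, Ds n L l k α m (D n L l k α m (f i j)) = La n L l k α (f i j) := by
          rw [La_eq, LinearMap.sum_apply]
          rfl
        rw [e3, h2]
      have e4 := (congrFun e2 x).symm
      rw [e1, e1, ← Pi.sub_apply, ← map_sub, ← Finset.sum_sub_distrib, e4,
        ← Pi.sub_apply, ← map_sub, ← Finset.sum_sub_distrib]
      refine congrArg (fun S => Gr n L l k α S x) (Finset.sum_congr rfl fun m _ => ?_)
      rw [← map_sub, ← map_sub]
      congr 1
      rw [hf' m j, map_neg]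
      abel
    have hbb : ∀ i j : Fin 4, i ≠ j → ∀ m x, ‖(D n L l k α m (f i j) +
        D n L l k α i (f j m) + D n L l k α j (f m i)) x‖ ≤ ε := by
      intro i j hij m x
      by_cases hmi : m = i
      · subst hmi
        rw [hf' m j, hfi m]
        simpa using hε0
      by_cases hmj : m = j
      · subst hmj
        rw [hf' i m, hfi m]
        simpa using hε0
      · exact hε i j m x hij (Ne.symm hmj) hmi
    have hterm : ∀ x, ∀ i : Fin 4, ∀ j ∈ Finset.Ioi i,
        ‖(nb k α i (pot k α f j) x - nb k α j (pot k α f i) x) * conj (f i j x) -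
          ((‖f i j x‖ ^ 2 : ℝ) : ℂ)‖ ≤ 8 * C * vol n L l ^ 2 * (ε * M) := by
      intro x i j hj
      have hij : i ≠ j := (Finset.mem_Ioi.mp hj).ne
      rw [key i j hij x, sub_mul, Complex.mul_conj']
      have h3 : ∀ y, ‖(∑ m : Fin 4, Ds n L l k α m (D n L l k α m (f i j) +
            D n L l k α i (f j m) + D n L l k α j (f m i))) y‖ ≤ 8 * ε := by
        intro y
        rw [Finset.sum_apply]
        refine (nsum _ _ (2 * ε) fun m _ => nbs_le k α m _ ε (hbb i j hij m) y).trans ?_
        simp only [Finset.card_univ, Fintype.card_fin, Nat.cast_ofNat]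
        linarith
      have h4 := Ginf k α C hC hG _ _ h3 x
      have h5 : ∀ (a b c : ℂ), ‖a‖ ^ 2 - b * conj c - ((‖a‖ ^ 2 : ℝ) : ℂ) = -(b * conj c) := by
        intro a b c
        push_cast
        ring
      rw [h5, norm_neg, norm_mul, RCLike.norm_conj]
      calc _ ≤ C * vol n L l ^ 2 * (8 * ε) * M :=
            mul_le_mul h4 (hM i j x) (norm_nonneg _) (by positivity)
        _ = _ := by ring
    have hB : 0 ≤ 8 * C * vol n L l ^ 2 * (ε * M) := by positivity
    have hx : ∀ x ∈ (Finset.univ : Finset (Site n L l)), ‖∑ i : Fin 4, ∑ j ∈ Finset.Ioi i,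
        ((nb k α i (pot k α f j) x - nb k α j (pot k α f i) x) * conj (f i j x) -
          ((‖f i j x‖ ^ 2 : ℝ) : ℂ))‖ ≤ 16 * (8 * C * vol n L l ^ 2 * (ε * M)) := by
      intro x _
      refine (nsum _ _ (4 * (8 * C * vol n L l ^ 2 * (ε * M))) fun i _ => ?_).trans ?_
      · refine (nsum _ _ _ (hterm x i)).trans ?_
        apply mul_le_mul_of_nonneg_right _ hB
        have : (Finset.Ioi i).card ≤ 4 := (Finset.card_le_univ _).trans (by simp)
        exact_mod_cast this
      · simp only [Finset.card_univ, Fintype.card_fin, Nat.cast_ofNat]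
        linarith
    refine (nsum _ _ _ hx).trans ?_
    rw [card_site]
    refine le_of_eq ?_
    ring

end

end Run7.h281.QC
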