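import Pool.Agent.Run7.h281.QC.Q5b

/-!
# The trace of the kernel, and its size

Piece Q5c of the interface `Run7/h630/QC/Iface.lean`.
-/

open Matrix Filter Topology
open scoped Matrix.Norms.Frobenius ComplexConjugate

namespace Run7.h281.QC

open Run7.h4.YM Run7.h630.MQ Run7.h630.QC

noncomputable section

variable {N n L l : ℕ}

lemma sum4 (F : Fin 4 → ℂ) :
    ∑ i : Fin 4, ∑ m ∈ (Finset.univ : Finset (Fin 4)).erase i, F m = 3 * ∑ m : Fin 4, F m := by
  simp only [Finset.sum_erase_eq_sub (Finset.mem_univ _), Finset.sum_sub_distrib,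
    Finset.sum_const, Finset.card_univ, Fintype.card_fin, nsmul_eq_mul]
  push_cast
  ring

/-- Q5c -/
theorem t_Q5c : S_Q5a → S_Q5c := by
  intro h5 N _
  obtain ⟨C, hC, H⟩ := h5 N
  refine ⟨16 * C, 2, by positivity, ?_⟩
  intro n L l k _ _ _ hk α hα
  obtain ⟨h1, h2, hG⟩ := H n L l k hk α hα
  have hv := one_le_vol (n := n) (L := L) (l := l)
  refine ⟨?_, ?_, ?_⟩
  · have hx : ∀ x : Site n L l, ∑ i : Fin 4, gg k α i x = 3 := by
      intro x
      have e1 : ∀ m : Fin 4, nbs k α m (Gr n L l k α (nb k α m (Pi.single x 1))) x =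
          Gr n L l k α (Ds n L l k α m (D n L l k α m (Pi.single x 1))) x := by
        intro m
        have e2 := comm_G k α h1 h2 (Ds n L l k α m) (Ds_La k α m)
          (D n L l k α m (Pi.single x 1))
        exact congrFun e2 x
      have e3 : ∀ i : Fin 4, gg k α i x = ∑ m ∈ (Finset.univ : Finset (Fin 4)).erase i,
          Gr n L l k α (Ds n L l k α m (D n L l k α m (Pi.single x 1))) x := by
        intro i
        unfold gg
        exact Finset.sum_congr rfl fun m _ => e1 m
      rw [Finset.sum_congr rfl fun i _ => e3 i, sum4]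
      have e4 : ∑ m : Fin 4, Gr n L l k α (Ds n L l k α m (D n L l k α m (Pi.single x 1))) x =
          1 := by
        rw [← Finset.sum_apply, ← map_sum]
        have e5 : ∑ m : Fin 4, Ds n L l k α m (D n L l k α m (Pi.single x 1)) =
            La n L l k α (Pi.single x 1) := by
          rw [La_eq, LinearMap.sum_apply]
          rfl
        rw [e5, h2]
        simp
      rw [e4, mul_one]
    rw [Finset.sum_congr rfl fun x _ => hx x, Finset.sum_const, nsmul_eq_mul]
    have hc := card_site (n := n) (L := L) (l := l)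
    have hc' : (((Finset.univ : Finset (Site n L l)).card : ℝ) : ℂ) = (vol n L l : ℂ) := by
      rw [hc]
    push_cast at hc' ⊢
    rw [hc']
    ring
  · intro i x
    unfold gg
    have hd : ∀ y : Site n L l, ‖(Pi.single x (1 : ℂ) : Site n L l → ℂ) y‖ ≤ 1 := by
      intro y
      by_cases hy : y = x
      · subst hy
        simp
      · rw [Pi.single_eq_of_ne hy]
        simp
    have hm : ∀ m ∈ (Finset.univ : Finset (Fin 4)).erase i,
        ‖nbs k α m (Gr n L l k α (nb k α m (Pi.single x 1))) x‖ ≤
          2 * (C * vol n L l ^ 2 * (2 * 1)) := by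
      intro m _
      refine nbs_le k α m _ _ (fun y => ?_) x
      exact Ginf k α C hC hG _ _ (nb_le k α m _ 1 hd) y
    refine (nsum _ _ _ hm).trans ?_
    have hcard : (((Finset.univ : Finset (Fin 4)).erase i).card : ℝ) ≤ 4 := by
      have : ((Finset.univ : Finset (Fin 4)).erase i).card ≤ 4 :=
        (Finset.card_le_univ _).trans (by simp)
      exact_mod_cast this
    calc _ ≤ 4 * (2 * (C * vol n L l ^ 2 * (2 * 1))) :=
          mul_le_mul_of_nonneg_right hcard (by positivity)
      _ = _ := by ring
  · intro h M hM x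
    have hM0 : 0 ≤ M := (norm_nonneg _).trans (hM x)
    refine (Ginf k α C hC hG h M hM x).trans ?_
    have : 0 ≤ C * vol n L l ^ 2 * M := by positivity
    nlinarith

end

end Run7.h281.QC
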